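import Pool.Agent.H.MP_3bb15c.B

set_option autoImplicit false

open Set Filter Topology TopologicalSpace

namespace Pool.Agent.Results.MP_3bb15c_gt.Counter

/-- s-completeness -/
def SComplete (X : Type) [TopologicalSpace X] [SemilatticeInf X] : Prop :=
  (∀ S : Set X, S.Nonempty → (∀ x ∈ S, ∀ y ∈ S, x ⊓ y ∈ S) →
    ∃ a, IsGLB S a ∧ a ∈ closure {x | ∃ s ∈ S, s ≤ x}) ∧
  ∀ C : Set X, C.Nonempty → IsChain (· ≤ ·) C →
    ∃ a, IsLUB C a ∧ a ∈ closure {x | ∃ c ∈ C, x ≤ c}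

open Pool.Agent.H.MP_3bb15c in
theorem result : ∃ (X Y : Type) (_ : TopologicalSpace X) (_ : SemilatticeInf X)
    (_ : TopologicalSpace Y) (_ : SemilatticeInf Y) (h : X → Y),
    ContinuousInf X ∧ T3Space X ∧ SComplete X ∧ ContinuousInf Y ∧ T2Space Y ∧ Continuous h ∧
      (∀ a b, h (a ⊓ b) = h a ⊓ h b) ∧ ¬ IsClosed (range h) :=
  ⟨X, Y, inferInstance, inferInstance, inferInstance, inferInstance, inc, inferInstance,
    inferInstance, ⟨fun S h hS => (glb S h fun _ a _ b => hS _ a _ b).imp fun _ k =>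
      ⟨k.1, closure_mono (fun x hx => by exact ⟨x, hx, le_rfl⟩) k.2⟩, lub⟩,
    inferInstance, inferInstance, cont, fun _ _ => rfl, not_closed⟩

end Pool.Agent.Results.MP_3bb15c_gt.Counter
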